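import Pool.Agent.H535Z.HG.St

set_option autoImplicit false

namespace Pool.Agent.H377Z.HG

open Pool.Agent.H668Z.SC Pool.Agent.H535Z.HG GS

theorem thm_qc : S_qc := by
  classical
  intro G V _ _ X o H g
  obtain ⟨δ, hδ⟩ := H.hyp
  obtain ⟨h, h4⟩ : ∃ h, X.Four h := ⟨_, hδ.four⟩
  obtain ⟨K, hK⟩ := H.cob
  have iso := H.iso
  obtain ⟨φ, hφ⟩ : ∃ φ : G → G, ∀ f b : G, f = b⁻¹ * g * b → f = (φ f)⁻¹ * g * φ f :=
    ⟨fun f => if h : ∃ b : G, f = b⁻¹ * g * b then h.choose else 1, fun f b hb => by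
      have h : ∃ b : G, f = b⁻¹ * g * b := ⟨b, hb⟩
      simp only [dif_pos h]
      exact h.choose_spec⟩
  obtain ⟨L, hL⟩ := ((H.prop (X.d o (g • o) + h + 2 * K)).image
    fun f => X.d o ((φ f)⁻¹ • o)).bddAbove
  refine ⟨K + L, fun e he v hv => ?_⟩
  have h1 : X.d (g • e • o) (e • o) = X.d o (g • o) := by
    rw [← iso e⁻¹, inv_smul_smul, smul_smul, smul_smul]
    rcases mem_Epm.1 ((Epm g).inv_mem he) with h | h <;> rw [inv_inv] at h <;> rw [h]
    · exact X.symm _ _
    · exact iso.d_inv _ _ _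
  have h2 : X.d v (g • v) ≤ X.d o (g • o) + h := by
    unfold GS.Btw at hv
    have t1 := h4 v (g • v) o (e • o)
    have t2 := X.tri (g • v) (g • e • o) (e • o)
    have t3 := X.tri (g • v) (g • o) o
    have t4 := iso g v (e • o)
    have t5 := iso g v o
    have t6 := X.symm (g • o) o
    have t7 := X.symm v o
    omega
  obtain ⟨b, hb⟩ := hK v
  have h3 : X.d o ((b⁻¹ * g * b) • o) ≤ X.d o (g • o) + h + 2 * K := by
    rw [← iso b, smul_smul, show b * (b⁻¹ * g * b) = g * b by group, mul_smul]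
    have t1 := X.tri (b • o) v (g • b • o)
    have t2 := X.tri v (g • v) (g • b • o)
    have t3 := iso g v (b • o)
    have t4 := X.symm v (b • o)
    omega
  have h5 : X.d o ((φ (b⁻¹ * g * b))⁻¹ • o) ≤ L := hL ⟨_, h3, rfl⟩
  have h6 := hφ _ b rfl
  generalize φ (b⁻¹ * g * b) = c at h5 h6
  refine ⟨b * c⁻¹, Or.inl ?_, ?_⟩
  · calc b * c⁻¹ * g * (b * c⁻¹)⁻¹ = b * (c⁻¹ * g * c) * b⁻¹ := by group
      _ = g := by rw [← h6]; group
  · have t1 := X.tri v (b • o) ((b * c⁻¹) • o)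
    rw [mul_smul, iso] at t1
    rw [mul_smul]
    omega

lemma near {V : Type} {X : GS V} {h R : ℕ} (h4 : X.Four h) {x x' u u' w : V} (hb : X.Btw u w u')
    (h1 : X.d x u ≤ R) (h2 : X.d x' u' ≤ R) (h3 : R + h < X.d u w) (h5 : R + 2 * h < X.d w u') :
    X.d x w + X.d w x' ≤ X.d x x' + 2 * h := by
  unfold GS.Btw at hb
  have t1 := h4 x w u u'
  have t2 := h4 x' w u' x
  have s1 := X.symm w u
  have s2 := X.symm x' w
  have s3 := X.symm u' x
  have s4 := X.symm w x
  have s5 := X.symm x' x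
  omega

lemma count {G V : Type} [Group G] [MulAction G V] {X : GS V} {o : V} (H : Geo G X o) {g : G}
    (hg : ¬ IsOfFinOrder g) : ∃ N : ℕ, ∀ (R : ℕ) (A : Finset G),
      (∀ a ∈ A, Commute a g ∧ X.d o (a • o) ≤ R) → A.card ≤ N * (2 * R + 1) := by
  classical
  obtain ⟨δ, hδ⟩ := H.hyp
  obtain ⟨h, h4⟩ : ∃ h, X.Four h := ⟨_, hδ.four⟩
  obtain ⟨K, hK⟩ := H.cob
  have iso := H.iso
  refine ⟨(H.prop (3 * h + 2 * K)).toFinset.card, fun R A hA => ?_⟩
  obtain ⟨k, hk⟩ : ∃ k : ℕ, 2 * R + 4 * h + 4 < X.d o (g ^ k • o) := by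
    by_contra hc
    push Not at hc
    exact Set.infinite_of_injective_forall_mem (injective_pow_iff_not_isOfFinOrder.2 hg)
      (s := {f : G | X.d o (f • o) ≤ 2 * R + 4 * h + 4}) hc (H.prop _)
  obtain ⟨y, y1, y2⟩ := exists_btw (X := X) o (g ^ k • o) (R + 2 * h + 1) (by omega)
  obtain ⟨b, hb⟩ := hK y
  have h1 : ∀ a ∈ A, X.d o (a • y) + X.d (a • y) (g ^ k • o) ≤ X.d o (g ^ k • o) + 2 * h := by
    intro a ha
    refine near h4 ((iso.btw a).2 y2) (hA a ha).2 ?_ (by rw [iso]; omega) ?_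
    · rw [smul_smul, ((hA a ha).1.pow_right k).eq, mul_smul, iso]
      exact (hA a ha).2
    · unfold GS.Btw at y2
      rw [iso]; omega
  have h2 := Finset.card_le_mul_card_image_of_maps_to (s := A)
    (t := Finset.Icc (2 * h + 1) (2 * R + 2 * h + 1)) (f := fun a => X.d o (a • y))
    (fun a ha => by
      have t1 := X.tri o (a • o) (a • y)
      have t2 := X.tri (a • o) o (a • y)
      have t3 := iso a o y
      have t4 := X.symm (a • o) o
      have t5 := (hA a ha).2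
      rw [Finset.mem_Icc]
      omega) (H.prop (3 * h + 2 * K)).toFinset.card (fun n _ => by
      rcases (A.filter fun a => X.d o (a • y) = n).eq_empty_or_nonempty with he | ⟨a₀, ha₀⟩
      · rw [he]; exact Nat.zero_le _
      refine Finset.card_le_card_of_injOn (fun a => b⁻¹ * (a₀⁻¹ * a) * b) (fun a ha => ?_)
        fun a _ a' _ e => mul_left_cancel (mul_left_cancel (mul_right_cancel e))
      rw [Finset.mem_coe, Finset.mem_filter] at ha
      rw [Finset.mem_filter] at ha₀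
      rw [Finset.mem_coe, Set.Finite.mem_toFinset]
      show X.d o ((b⁻¹ * (a₀⁻¹ * a) * b) • o) ≤ _
      rw [← iso (a₀ * b), smul_smul, show a₀ * b * (b⁻¹ * (a₀⁻¹ * a) * b) = a * b by group,
        mul_smul, mul_smul]
      have t1 := h1 a ha.1
      have t2 := h1 a₀ ha₀.1
      have t3 := h4 (a₀ • y) (a • y) o (g ^ k • o)
      have t4 := X.tri (a₀ • b • o) (a₀ • y) (a • b • o)
      have t5 := X.tri (a₀ • y) (a • y) (a • b • o)
      have t6 := iso a y (b • o)
      have t7 := iso a₀ (b • o) y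
      have t8 := X.symm (b • o) y
      have t9 := X.symm (a₀ • y) o
      have t10 := X.symm (a • y) o
      have t11 := ha.2
      have t12 := ha₀.2
      omega)
  rw [Nat.card_Icc] at h2
  rwa [show 2 * R + 2 * h + 1 + 1 - (2 * h + 1) = 2 * R + 1 by omega] at h2

theorem thm_vc : S_vc := by
  classical
  rintro G _ ⟨V, _, X, o, H⟩ g hg
  obtain ⟨N, hN⟩ := count H hg
  have iso := H.iso
  by_contra hc
  push Not at hc
  have h1 : ∀ q : ℕ, ∃ S : Finset G, S.card = q ∧ (∀ a ∈ S, Commute a g) ∧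
      ∀ a ∈ S, ∀ a' ∈ S, a * a'⁻¹ ∈ Subgroup.zpowers g → a = a' := by
    intro q
    induction q with
    | zero => exact ⟨∅, rfl, by simp, by simp⟩
    | succ q ih =>
      obtain ⟨S, s1, s2, s3⟩ := ih
      obtain ⟨c, c1, c2⟩ := hc S S.finite_toSet
      have c3 : c ∉ S := fun hm => c2 c hm (by simp)
      refine ⟨insert c S, by rw [Finset.card_insert_of_notMem c3, s1], fun a ha => ?_,
        fun a ha a' ha' e => ?_⟩
      · rcases Finset.mem_insert.1 ha with rfl | ha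
        exacts [c1, s2 a ha]
      · rcases Finset.mem_insert.1 ha with rfl | hb <;>
          rcases Finset.mem_insert.1 ha' with rfl | hb'
        · rfl
        · exact absurd e (c2 a' hb')
        · exact absurd (by simpa using Subgroup.inv_mem _ e) (c2 a hb)
        · exact s3 a hb a' hb' e
  have h2 : ∀ m : ℕ, X.d o (g ^ m • o) ≤ m * X.d o (g • o) := by
    intro m
    induction m with
    | zero => simp [X.d_self]
    | succ m ih =>
      have t1 := X.tri o (g ^ m • o) (g ^ m • g • o)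
      rw [iso] at t1
      rw [pow_succ, mul_smul, add_mul]
      omega
  obtain ⟨f, hf⟩ : ∃ f, f = X.d o (g • o) := ⟨_, rfl⟩
  rw [← hf] at h2
  obtain ⟨S, s1, s2, s3⟩ := h1 (2 * f * N + 1)
  obtain ⟨D, hD⟩ := (S.finite_toSet.image fun a => X.d o (a • o)).bddAbove
  obtain ⟨M, hM⟩ : ∃ M, M = (2 * D + 1) * N + 1 := ⟨_, rfl⟩
  have h3 := hN (M * f + D) (((Finset.range M) ×ˢ S).image fun p => g ^ p.1 * p.2) (by
    intro a ha
    obtain ⟨⟨m, c⟩, hp, rfl⟩ := Finset.mem_image.1 ha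
    obtain ⟨p1, p2⟩ := Finset.mem_product.1 hp
    refine ⟨(Commute.refl g).pow_left m |>.mul_left (s2 c p2), ?_⟩
    have t1 := X.tri o (g ^ m • o) (g ^ m • c • o)
    have t2 : X.d o (c • o) ≤ D := hD ⟨c, p2, rfl⟩
    have t3 := h2 m
    have t4 : m * f ≤ M * f := Nat.mul_le_mul_right _ (Finset.mem_range.1 p1).le
    rw [iso] at t1
    show X.d o ((g ^ m * c) • o) ≤ _
    rw [mul_smul]
    omega)
  rw [Finset.card_image_of_injOn, Finset.card_product, Finset.card_range, s1] at h3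
  · nlinarith
  · rintro ⟨m, c⟩ hp ⟨m', c'⟩ hp' e
    have e1 : g ^ m * c = g ^ m' * c' := e
    have e2 : c = c' := by
      refine s3 c (Finset.mem_product.1 hp).2 c' (Finset.mem_product.1 hp').2 ?_
      rw [show c * c'⁻¹ = (g ^ m)⁻¹ * (g ^ m * c) * c'⁻¹ by group, e1, mul_assoc,
        mul_inv_cancel_right]
      exact Subgroup.mul_mem _ (Subgroup.inv_mem _ (Subgroup.npow_mem_zpowers g m))
        (Subgroup.npow_mem_zpowers g m')
    subst e2
    rw [injective_pow_iff_not_isOfFinOrder.2 hg (mul_right_cancel e1)]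

end Pool.Agent.H377Z.HG
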